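import Mathlib

/-! Density: the coordinates `1 - K (j*s)^2` of the Landen tower have different orders in `t`. -/

namespace Helper77.VE

open Filter Topology Finset

theorem digits_inj (d s : ℕ) (e e' : Fin d →₀ ℕ) (he : ∀ j, e j < 2 ^ s) (he' : ∀ j, e' j < 2 ^ s)
    (h : ∑ j : Fin d, e j * 2 ^ ((j : ℕ) * s) = ∑ j : Fin d, e' j * 2 ^ ((j : ℕ) * s)) :
    e = e' := by
  have key : (finFunctionFinEquiv (fun j : Fin d => (⟨e j, he j⟩ : Fin (2 ^ s)))) =
      finFunctionFinEquiv (fun j : Fin d => (⟨e' j, he' j⟩ : Fin (2 ^ s))) := by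
    apply Fin.ext
    rw [finFunctionFinEquiv_apply, finFunctionFinEquiv_apply]
    simp only
    simp only [← pow_mul, mul_comm s]
    exact h
  have := finFunctionFinEquiv.injective key
  ext j
  have hj := congrFun this j
  exact congrArg Fin.val hj

/-- the limits `c_i` of `(1 - K_i^2) t^(2^i)` -/
noncomputable def cc : ℕ → ℝ
  | 0 => 1
  | (i + 1) => (cc i) ^ 2 / 16

theorem cc_pos (i : ℕ) : 0 < cc i := by
  induction i with
  | zero => simp [cc]
  | succ i ih => simp only [cc]; positivity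

theorem lims (t : ℕ → ℝ) (K : ℕ → ℕ → ℝ) (ht : Tendsto t atTop atTop) (htpos : ∀ n, 0 < t n)
    (hK : ∀ n i, 0 ≤ K n i) (h0 : ∀ n, (K n 0) ^ 4 = t n * (1 - (K n 0) ^ 2))
    (hs : ∀ n i, K n (i + 1) = 2 * Real.sqrt (K n i) / (1 + K n i)) (i : ℕ) :
    Tendsto (fun n => K n i) atTop (𝓝 1) ∧
      Tendsto (fun n => (1 - (K n i) ^ 2) * (t n) ^ (2 ^ i)) atTop (𝓝 (cc i)) := by
  induction i with
  | zero =>
    have h1 : ∀ n, (K n 0) ^ 2 ≤ 1 := by
      intro n
      by_contra hcon
      push Not at hcon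
      have hh := h0 n
      have : t n * (1 - (K n 0) ^ 2) < 0 := mul_neg_of_pos_of_neg (htpos n) (by linarith)
      have h4 : 0 ≤ (K n 0) ^ 4 := by positivity
      linarith
    have hinv : Tendsto (fun n => (t n)⁻¹) atTop (𝓝 0) := tendsto_inv_atTop_zero.comp ht
    have hd0 : Tendsto (fun n => 1 - (K n 0) ^ 2) atTop (𝓝 0) := by
      apply squeeze_zero (g := fun n => (t n)⁻¹)
      · intro n; linarith [h1 n]
      · intro n
        have hh := h0 n
        have h4 : (K n 0) ^ 4 ≤ 1 := by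
          have : (K n 0) ^ 4 = ((K n 0) ^ 2) ^ 2 := by ring
          rw [this]
          exact pow_le_one₀ (by positivity) (h1 n)
        rw [hh] at h4
        rw [← one_div, le_div_iff₀ (htpos n)]
        linarith
      · exact hinv
    have hK2 : Tendsto (fun n => (K n 0) ^ 2) atTop (𝓝 1) := by
      have := hd0.const_sub 1
      simpa using this
    have hK1 : Tendsto (fun n => K n 0) atTop (𝓝 1) := by
      have := (Real.continuous_sqrt.tendsto 1).comp hK2
      rw [Real.sqrt_one] at this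
      refine this.congr ?_
      intro n
      simp only [Function.comp]
      exact Real.sqrt_sq (hK n 0)
    refine ⟨hK1, ?_⟩
    have : Tendsto (fun n => (K n 0) ^ 4) atTop (𝓝 (1 ^ 4)) := hK1.pow 4
    simp only [cc]
    rw [one_pow] at this
    refine this.congr ?_
    intro n
    rw [h0 n]
    simp [mul_comm]
  | succ i ih =>
    obtain ⟨ihK, ihd⟩ := ih
    have hsq : Tendsto (fun n => Real.sqrt (K n i)) atTop (𝓝 1) := by
      have := (Real.continuous_sqrt.tendsto 1).comp ihK
      rwa [Real.sqrt_one] at this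
    have h1K : Tendsto (fun n => 1 + K n i) atTop (𝓝 (1 + 1)) := ihK.const_add 1
    refine ⟨?_, ?_⟩
    · have := (hsq.const_mul 2).div h1K (by norm_num)
      rw [show (2 * 1 / (1 + 1) : ℝ) = 1 by norm_num] at this
      refine this.congr ?_
      intro n
      rw [hs n i]
      rfl
    · have := (ihd.pow 2).div (h1K.pow 4) (by norm_num)
      rw [show (cc i ^ 2 / (1 + 1) ^ 4 : ℝ) = cc (i + 1) by simp only [cc]; norm_num] at this
      refine this.congr ?_
      intro n
      have hpos : (0 : ℝ) < 1 + K n i := by linarith [hK n i]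
      have hne : (1 + K n i : ℝ) ≠ 0 := ne_of_gt hpos
      rw [hs n i]
      have hq : Real.sqrt (K n i) ^ 2 = K n i := Real.sq_sqrt (hK n i)
      simp only [Pi.div_apply]
      rw [div_pow (2 * Real.sqrt (K n i)), mul_pow 2 (Real.sqrt (K n i)) 2, hq]
      rw [pow_succ 2 i, pow_mul (t n)]
      field_simp
      ring

theorem dens (d s : ℕ) (G : MvPolynomial (Fin d) ℂ) (hG : G ≠ 0)
    (hdeg : ∀ j, G.degreeOf j < 2 ^ s) :
    ∃ T : ℝ, ∀ t, T < t → ∀ K : ℕ → ℝ, (∀ i, 0 ≤ K i) → (K 0) ^ 4 = t * (1 - (K 0) ^ 2) →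
      (∀ i, K (i + 1) = 2 * Real.sqrt (K i) / (1 + K i)) →
      MvPolynomial.eval (fun j : Fin d => ((1 - (K (j * s)) ^ 2 : ℝ) : ℂ)) G ≠ 0 := by
  by_contra hcon
  push Not at hcon
  -- a sequence of counterexamples
  choose t htn K hK h0 hs hev using fun n : ℕ => hcon (n : ℝ)
  have htpos : ∀ n, 0 < t n := fun n => lt_of_le_of_lt (Nat.cast_nonneg n) (htn n)
  have ht : Tendsto t atTop atTop :=
    tendsto_atTop_mono (fun n => (htn n).le) tendsto_natCast_atTop_atTop
  have L := fun i => (lims t K ht htpos hK h0 hs i).2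
  -- weights
  let w : (Fin d →₀ ℕ) → ℕ := fun e => ∑ j : Fin d, e j * 2 ^ ((j : ℕ) * s)
  have hsup : G.support.Nonempty := MvPolynomial.support_nonempty.mpr hG
  obtain ⟨e0, he0, hmin⟩ := G.support.exists_min_image w hsup
  have hlt : ∀ e ∈ G.support, ∀ j, e j < 2 ^ s := by
    intro e he j
    exact lt_of_le_of_lt (MvPolynomial.monomial_le_degreeOf j he) (hdeg j)
  have hstrict : ∀ e ∈ G.support, e ≠ e0 → w e0 < w e := by
    intro e he hne
    rcases lt_or_eq_of_le (hmin e he) with h | h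
    · exact h
    · exact absurd (digits_inj d s e e0 (hlt e he) (hlt e0 he0) h.symm) hne
  -- real product
  let P : (Fin d →₀ ℕ) → ℕ → ℝ := fun e n => ∏ j : Fin d, (1 - (K n (j * s)) ^ 2) ^ (e j)
  let C : (Fin d →₀ ℕ) → ℝ := fun e => ∏ j : Fin d, (cc (j * s)) ^ (e j)
  have hC : ∀ e, C e ≠ 0 := fun e => by
    apply Finset.prod_ne_zero_iff.mpr
    intro j _
    exact pow_ne_zero _ (cc_pos _).ne'
  have hP : ∀ e, Tendsto (fun n => P e n * (t n) ^ (w e)) atTop (𝓝 (C e)) := by
    intro e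
    have : Tendsto (fun n => ∏ j : Fin d,
        ((1 - (K n (j * s)) ^ 2) * (t n) ^ (2 ^ ((j : ℕ) * s))) ^ (e j)) atTop (𝓝 (C e)) :=
      tendsto_finsetProd _ (fun j _ => (L (j * s)).pow (e j))
    refine this.congr ?_
    intro n
    simp only [P, w, mul_pow]
    rw [Finset.prod_mul_distrib, ← Finset.prod_pow_eq_pow_sum]
    congr 1
    apply Finset.prod_congr rfl
    intro j _
    rw [← pow_mul, mul_comm]
  have hP0 : Tendsto (fun n => P e0 n * (t n) ^ (w e0)) atTop (𝓝 (C e0)) := hP e0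
  have hPe : ∀ e ∈ G.support, e ≠ e0 →
      Tendsto (fun n => P e n * (t n) ^ (w e0)) atTop (𝓝 0) := by
    intro e he hne
    have hw := hstrict e he hne
    have h1 : Tendsto (fun n => ((t n) ^ (w e - w e0))⁻¹) atTop (𝓝 0) := by
      apply tendsto_inv_atTop_zero.comp
      exact (tendsto_pow_atTop (by omega)).comp ht
    have := (hP e).mul h1
    rw [mul_zero] at this
    refine this.congr ?_
    intro n
    have hne : (t n) ≠ 0 := (htpos n).ne'
    have : (t n) ^ (w e) = (t n) ^ (w e0) * (t n) ^ (w e - w e0) := by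
      rw [← pow_add]; congr 1; omega
    rw [this]
    field_simp
  -- the total
  have htot : Tendsto (fun n => ((MvPolynomial.eval
      (fun j : Fin d => ((1 - (K n (j * s)) ^ 2 : ℝ) : ℂ)) G) * (((t n) ^ (w e0) : ℝ) : ℂ)))
      atTop (𝓝 (G.coeff e0 * ((C e0 : ℝ) : ℂ))) := by
    have h1 : ∀ n, (MvPolynomial.eval
        (fun j : Fin d => ((1 - (K n (j * s)) ^ 2 : ℝ) : ℂ)) G) * (((t n) ^ (w e0) : ℝ) : ℂ) =
        ∑ e ∈ G.support, G.coeff e * ((P e n * (t n) ^ (w e0) : ℝ) : ℂ) := by
      intro n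
      rw [MvPolynomial.eval_eq', Finset.sum_mul]
      apply Finset.sum_congr rfl
      intro e _
      simp only [P]
      push_cast
      ring
    simp only [h1]
    have h2 : (G.coeff e0 * ((C e0 : ℝ) : ℂ)) =
        ∑ e ∈ G.support, (if e = e0 then G.coeff e0 * ((C e0 : ℝ) : ℂ) else 0) := by
      rw [Finset.sum_ite_eq' G.support e0]
      simp [he0]
    rw [h2]
    apply tendsto_finsetSum
    intro e he
    by_cases hee : e = e0
    · subst hee
      simp only [if_true]
      exact ((Complex.continuous_ofReal.tendsto _).comp hP0).const_mul _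
    · simp only [if_neg hee]
      have := ((Complex.continuous_ofReal.tendsto _).comp (hPe e he hee)).const_mul (G.coeff e)
      simpa using this
  have hz : ∀ n, (MvPolynomial.eval
      (fun j : Fin d => ((1 - (K n (j * s)) ^ 2 : ℝ) : ℂ)) G) * (((t n) ^ (w e0) : ℝ) : ℂ) = 0 := by
    intro n
    rw [hev n, zero_mul]
  simp only [hz] at htot
  have huniq := tendsto_nhds_unique htot tendsto_const_nhds
  have : G.coeff e0 ≠ 0 := MvPolynomial.mem_support_iff.mp he0
  have hne : (G.coeff e0 * ((C e0 : ℝ) : ℂ)) ≠ 0 :=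
    mul_ne_zero this (by exact_mod_cast hC e0)
  exact hne huniq

end Helper77.VE
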