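import Mathlib

/-! Substitution of the unit point `x(μ)`, `μ_j = 1 - δ_j`, and Kronecker's substitution. -/

namespace Helper77.VE

open MvPolynomial Finset

variable {Ω : Type*} [Field Ω]

/-- the coordinates `x_1, ..., x_{n+1}` of the unit point: `x_j = μ_1 ... μ_{j-1} (μ_j - 1)` for
`j ≤ n`, `x_{n+1} = - μ_1 ... μ_n`, with `μ_j = 1 - δ_j` (indices shifted by one). -/
noncomputable def xx {R : Type*} [CommRing R] (n : ℕ) (δ : Fin n → R) : Fin (n + 1) → R :=
  fun j => if h : (j : ℕ) < n then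
    (∏ i ∈ Finset.univ.filter (fun i : Fin n => (i : ℕ) < (j : ℕ)), (1 - δ i)) * (-δ ⟨j, h⟩)
  else - ∏ i, (1 - δ i)

theorem filter_succ (n j : ℕ) (h : j < n) :
    (Finset.univ.filter (fun i : Fin n => (i : ℕ) < j + 1)) =
      insert (⟨j, h⟩ : Fin n) (Finset.univ.filter (fun i : Fin n => (i : ℕ) < j)) := by
  ext i
  simp only [Finset.mem_filter, Finset.mem_univ, true_and, Finset.mem_insert, Fin.ext_iff]
  omega

theorem xx_castSucc {R : Type*} [CommRing R] (n : ℕ) (δ : Fin n → R) (j : Fin n) :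
    xx n δ j.castSucc =
      (∏ i ∈ Finset.univ.filter (fun i : Fin n => (i : ℕ) < (j : ℕ)), (1 - δ i)) * (-δ j) := by
  unfold xx
  rw [dif_pos (by simp)]
  rfl

theorem xx_last {R : Type*} [CommRing R] (n : ℕ) (δ : Fin n → R) :
    xx n δ (Fin.last n) = - ∏ i, (1 - δ i) := by
  unfold xx
  rw [dif_neg (by simp)]

/-- partial sums -/
theorem partial_sum {R : Type*} [CommRing R] (n : ℕ) (δ : Fin n → R) (j : ℕ) (hj : j ≤ n) :
    1 + ∑ i ∈ Finset.univ.filter (fun i : Fin n => (i : ℕ) < j), xx n δ i.castSucc =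
      ∏ i ∈ Finset.univ.filter (fun i : Fin n => (i : ℕ) < j), (1 - δ i) := by
  induction j with
  | zero => simp
  | succ j ih =>
    have hjn : j < n := by omega
    have ih' := ih (by omega)
    rw [filter_succ n j hjn, Finset.sum_insert (by simp), Finset.prod_insert (by simp)]
    rw [xx_castSucc]
    simp only at *
    linear_combination ih'

theorem sum_xx {R : Type*} [CommRing R] (n : ℕ) (δ : Fin n → R) :
    1 + ∑ i, xx n δ i = 0 := by
  have h := partial_sum n δ n le_rfl
  have hf : (Finset.univ.filter (fun i : Fin n => (i : ℕ) < n)) = Finset.univ := by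
    ext i; simp
  rw [hf] at h
  rw [Fin.sum_univ_castSucc, xx_last]
  linear_combination h

/-- the map `δ ↦ xx δ` hits every point with non-zero partial sums -/
theorem xx_surj (n : ℕ) (x : Fin n → Ω)
    (hs : ∀ j : Fin n, 1 + ∑ i ∈ Finset.univ.filter (fun i : Fin n => (i : ℕ) < (j : ℕ)), x i ≠ 0) :
    ∃ δ : Fin n → Ω, ∀ j : Fin n, xx n δ j.castSucc = x j := by
  let s : ℕ → Ω := fun j => 1 + ∑ i ∈ Finset.univ.filter (fun i : Fin n => (i : ℕ) < j), x i
  let δ : Fin n → Ω := fun j => -(x j) / s j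
  have hprod : ∀ j : ℕ, j ≤ n →
      ∏ i ∈ Finset.univ.filter (fun i : Fin n => (i : ℕ) < j), (1 - δ i) = s j := by
    intro j hj
    induction j with
    | zero => simp [s]
    | succ j ih =>
      have hjn : j < n := by omega
      have ih' := ih (by omega)
      rw [filter_succ n j hjn, Finset.prod_insert (by simp), ih']
      have hne : s j ≠ 0 := hs ⟨j, hjn⟩
      have h1 : s (j + 1) = s j + x ⟨j, hjn⟩ := by
        simp only [s]
        rw [filter_succ n j hjn, Finset.sum_insert (by simp)]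
        ring
      rw [h1]
      simp only [δ]
      field_simp
      ring
  refine ⟨δ, ?_⟩
  intro j
  rw [xx_castSucc, hprod j (by omega)]
  have hne : s j ≠ 0 := hs j
  simp only [δ]
  field_simp

theorem exists_xx_ne_zero [Infinite Ω] (n : ℕ) (G : MvPolynomial (Fin n) Ω) (hG : G ≠ 0) :
    ∃ δ : Fin n → Ω, eval (fun j : Fin n => xx n δ j.castSucc) G ≠ 0 := by
  let sp : Fin n → MvPolynomial (Fin n) Ω := fun j =>
    1 + ∑ i ∈ Finset.univ.filter (fun i : Fin n => (i : ℕ) < (j : ℕ)), X i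
  have hsp : ∀ j, sp j ≠ 0 := by
    intro j h
    have := congrArg (eval (0 : Fin n → Ω)) h
    simp [sp] at this
  have hne : G * ∏ j, sp j ≠ 0 := mul_ne_zero hG (Finset.prod_ne_zero_iff.mpr fun j _ => hsp j)
  obtain ⟨x, hx⟩ : ∃ x : Fin n → Ω, eval x (G * ∏ j, sp j) ≠ 0 := by
    by_contra hcon
    push Not at hcon
    exact hne (MvPolynomial.funext (fun x => by rw [hcon x, map_zero]))
  rw [map_mul, map_prod] at hx
  have hx1 := left_ne_zero_of_mul hx
  have hx2 : ∀ j, eval x (sp j) ≠ 0 := by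
    intro j
    exact (Finset.prod_ne_zero_iff.mp (right_ne_zero_of_mul hx)) j (Finset.mem_univ j)
  obtain ⟨δ, hδ⟩ := xx_surj n x (fun j => by
    have := hx2 j
    simpa [sp, map_add, map_sum] using this)
  refine ⟨δ, ?_⟩
  have : (fun j : Fin n => xx n δ j.castSucc) = x := funext hδ
  rw [this]
  exact hx1

theorem degreeOf_one_sub_X (n : ℕ) (i j : Fin n) :
    degreeOf j (1 - X i : MvPolynomial (Fin n) Ω) ≤ if i = j then 1 else 0 := by
  rw [sub_eq_add_neg]
  refine (degreeOf_add_le _ _ _).trans ?_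
  rw [degreeOf_neg, degreeOf_one, degreeOf_X]
  by_cases h : i = j
  · simp [h]
  · simp [h, Ne.symm h]

theorem degreeOf_xx (n : ℕ) (l : Fin (n + 1)) (j : Fin n) :
    degreeOf j (xx n (X : Fin n → MvPolynomial (Fin n) Ω) l) ≤ 1 := by
  have hsum : ∀ s : Finset (Fin n),
      ∑ i ∈ s, (if i = j then 1 else 0) ≤ if j ∈ s then 1 else 0 := by
    intro s
    rw [Finset.sum_ite_eq' s j]
  have hprod : ∀ s : Finset (Fin n),
      degreeOf j (∏ i ∈ s, (1 - X i) : MvPolynomial (Fin n) Ω) ≤ if j ∈ s then 1 else 0 := by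
    intro s
    refine (degreeOf_prod_le _ _ _).trans ?_
    exact (Finset.sum_le_sum (fun i _ => degreeOf_one_sub_X n i j)).trans (hsum s)
  unfold xx
  split_ifs with h
  · refine (degreeOf_mul_le _ _ _).trans ?_
    rw [degreeOf_neg, degreeOf_X]
    have h1 := hprod (Finset.univ.filter (fun i : Fin n => (i : ℕ) < (l : ℕ)))
    by_cases hjl : j = ⟨l, h⟩
    · have hnot : j ∉ (Finset.univ.filter (fun i : Fin n => (i : ℕ) < (l : ℕ))) := by
        subst hjl
        simp
      rw [if_neg hnot] at h1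
      rw [if_pos hjl]
      omega
    · rw [if_neg hjl]
      have : (if j ∈ (Finset.univ.filter (fun i : Fin n => (i : ℕ) < (l : ℕ))) then 1 else 0) ≤ 1 := by
        split_ifs <;> omega
      omega
  · rw [degreeOf_neg]
    refine (hprod Finset.univ).trans ?_
    simp

theorem degreeOf_aeval_le {N n : ℕ} (G : MvPolynomial (Fin N) Ω)
    (f : Fin N → MvPolynomial (Fin n) Ω) (j : Fin n) (hf : ∀ l, degreeOf j (f l) ≤ 1) :
    degreeOf j (aeval f G) ≤ G.totalDegree := by
  classical
  rw [aeval_def, eval₂_eq']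
  refine (degreeOf_sum_le _ _ _).trans (Finset.sup_le ?_)
  intro e he
  rw [MvPolynomial.algebraMap_eq]
  refine (degreeOf_C_mul_le _ _ _).trans ?_
  refine (degreeOf_prod_le _ _ _).trans ?_
  have h5 := MvPolynomial.le_totalDegree he
  rw [Finsupp.sum_fintype _ _ (fun _ => rfl)] at h5
  refine le_trans ?_ h5
  apply Finset.sum_le_sum
  intro i _
  refine (degreeOf_pow_le _ _ _).trans ?_
  calc e i * degreeOf j (f i) ≤ e i * 1 := Nat.mul_le_mul_left _ (hf i)
    _ = e i := by simp

theorem eval_xx (n : ℕ) (δ : Fin n → Ω) (l : Fin (n + 1)) :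
    eval δ (xx n (X : Fin n → MvPolynomial (Fin n) Ω) l) = xx n δ l := by
  unfold xx
  split_ifs with h
  · simp [map_mul, map_prod]
  · simp [map_prod]

theorem eval_aeval_xx {N n : ℕ} (G : MvPolynomial (Fin N) Ω)
    (f : Fin N → MvPolynomial (Fin n) Ω) (δ : Fin n → Ω) :
    eval δ (aeval f G) = eval (fun l => eval δ (f l)) G := by
  induction G using MvPolynomial.induction_on with
  | C a => simp
  | add p q hp hq => rw [map_add, map_add, map_add, hp, hq]
  | mul_X p i hp => rw [map_mul, map_mul, map_mul, hp, aeval_X, eval_X]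

theorem subst [Infinite Ω] (n : ℕ) (G : MvPolynomial (Fin (n + 1)) Ω) (x0 : Fin (n + 1) → Ω)
    (h1 : 1 + ∑ i, x0 i = 0) (hG : eval x0 G ≠ 0) :
    ∃ G' : MvPolynomial (Fin n) Ω, G' ≠ 0 ∧ (∀ j, G'.degreeOf j ≤ G.totalDegree) ∧
      ∀ δ : Fin n → Ω, eval δ G' = eval (xx n δ) G := by
  refine ⟨aeval (xx n X) G, ?_, fun j => degreeOf_aeval_le G _ j (fun l => degreeOf_xx n l j), ?_⟩
  · -- the polynomial `G(x_0, ..., x_{n-1}, -1 - ∑ x_i)`
    let f : Fin (n + 1) → MvPolynomial (Fin n) Ω :=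
      Fin.snoc (α := fun _ => MvPolynomial (Fin n) Ω) X (-1 - ∑ i, X i)
    have hne : aeval f G ≠ 0 := by
      intro h
      have h2 := congrArg (eval (fun j : Fin n => x0 j.castSucc)) h
      rw [eval_aeval_xx, map_zero] at h2
      have h3 : (fun l => eval (fun j : Fin n => x0 j.castSucc) (f l)) = x0 := by
        funext l
        refine Fin.lastCases ?_ (fun i => ?_) l
        · simp only [f, Fin.snoc_last]
          simp only [map_sub, map_neg, map_one, map_sum, eval_X]
          rw [Fin.sum_univ_castSucc] at h1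
          linear_combination (-1 : Ω) * h1
        · simp [f, Fin.snoc_castSucc]
      rw [h3] at h2
      exact hG h2
    obtain ⟨δ, hδ⟩ := exists_xx_ne_zero n _ hne
    rw [eval_aeval_xx] at hδ
    have h4 : (fun l => eval (fun j : Fin n => xx n δ j.castSucc) (f l)) = xx n δ := by
      funext l
      refine Fin.lastCases ?_ (fun i => ?_) l
      · simp only [f, Fin.snoc_last]
        simp only [map_sub, map_neg, map_one, map_sum, eval_X]
        have := sum_xx n δ
        rw [Fin.sum_univ_castSucc] at this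
        linear_combination (-1 : Ω) * this
      · simp [f, Fin.snoc_castSucc]
    rw [h4] at hδ
    intro h
    apply hδ
    have h5 := congrArg (eval δ) h
    rw [eval_aeval_xx, map_zero] at h5
    simpa only [eval_xx] using h5
  · intro δ
    rw [eval_aeval_xx]
    simp only [eval_xx]

theorem subst' [Infinite Ω] (n : ℕ) (G : MvPolynomial (Fin n) Ω) (hG : G ≠ 0) :
    ∃ G' : MvPolynomial (Fin n) Ω, G' ≠ 0 ∧ (∀ j, G'.degreeOf j ≤ G.totalDegree) ∧
      ∀ δ : Fin n → Ω, eval δ G' = eval (fun j : Fin n => xx n δ j.castSucc) G := by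
  refine ⟨aeval (fun j : Fin n => xx n X j.castSucc) G, ?_,
    fun j => degreeOf_aeval_le G _ j (fun l => degreeOf_xx n l.castSucc j), ?_⟩
  · obtain ⟨δ, hδ⟩ := exists_xx_ne_zero n G hG
    intro h
    apply hδ
    have h5 := congrArg (eval δ) h
    rw [eval_aeval_xx, map_zero] at h5
    simpa only [eval_xx] using h5
  · intro δ
    rw [eval_aeval_xx]
    simp only [eval_xx]

theorem digits_inj' (n B : ℕ) (e e' : Fin n →₀ ℕ) (he : ∀ j, e j < B) (he' : ∀ j, e' j < B)
    (h : ∑ j : Fin n, e j * B ^ (j : ℕ) = ∑ j : Fin n, e' j * B ^ (j : ℕ)) :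
    e = e' := by
  have key : (finFunctionFinEquiv (fun j : Fin n => (⟨e j, he j⟩ : Fin B))) =
      finFunctionFinEquiv (fun j : Fin n => (⟨e' j, he' j⟩ : Fin B)) := by
    apply Fin.ext
    rw [finFunctionFinEquiv_apply, finFunctionFinEquiv_apply]
    exact h
  have := finFunctionFinEquiv.injective key
  ext j
  exact congrArg Fin.val (congrFun this j)

theorem kronecker (n B : ℕ) (G : MvPolynomial (Fin n) Ω) (hG : G ≠ 0)
    (hdeg : ∀ j, G.degreeOf j < B) :
    {l : Ω | eval (fun j : Fin n => 1 - l ^ (B ^ (j : ℕ))) G = 0}.Finite := by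
  classical
  let w : (Fin n →₀ ℕ) → ℕ := fun e => ∑ j : Fin n, e j * B ^ (j : ℕ)
  let T : (Fin n →₀ ℕ) → Polynomial Ω := fun e =>
    ∏ j : Fin n, (1 - Polynomial.X ^ (B ^ (j : ℕ))) ^ (e j)
  let q : Polynomial Ω := ∑ e ∈ G.support, Polynomial.C (G.coeff e) * T e
  have hlt : ∀ e ∈ G.support, ∀ j, e j < B := by
    intro e he j
    exact lt_of_le_of_lt (MvPolynomial.monomial_le_degreeOf j he) (hdeg j)
  have hBj : ∀ j : Fin n, B ^ (j : ℕ) ≠ 0 := by
    intro j
    have : 0 < B := lt_of_le_of_lt (Nat.zero_le _) (hdeg j)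
    positivity
  have hfac : ∀ j : Fin n, (1 - Polynomial.X ^ (B ^ (j : ℕ)) : Polynomial Ω).natDegree = B ^ (j : ℕ)
      ∧ (1 - Polynomial.X ^ (B ^ (j : ℕ)) : Polynomial Ω).leadingCoeff = -1 := by
    intro j
    have h1 : (1 - Polynomial.X ^ (B ^ (j : ℕ)) : Polynomial Ω) =
        -(Polynomial.X ^ (B ^ (j : ℕ)) - Polynomial.C 1) := by
      rw [map_one]; ring
    rw [h1, Polynomial.natDegree_neg, Polynomial.natDegree_X_pow_sub_C, Polynomial.leadingCoeff_neg,
      Polynomial.leadingCoeff_X_pow_sub_C (Nat.pos_of_ne_zero (hBj j))]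
    exact ⟨rfl, rfl⟩
  have hfne : ∀ j : Fin n, (1 - Polynomial.X ^ (B ^ (j : ℕ)) : Polynomial Ω) ≠ 0 := by
    intro j h
    have := (hfac j).2
    rw [h, Polynomial.leadingCoeff_zero] at this
    exact one_ne_zero (neg_eq_zero.mp this.symm)
  have hTdeg : ∀ e, (T e).natDegree = w e := by
    intro e
    simp only [T, w]
    rw [Polynomial.natDegree_prod _ _ (fun j _ => pow_ne_zero _ (hfne j))]
    apply Finset.sum_congr rfl
    intro j _
    rw [Polynomial.natDegree_pow, (hfac j).1]
  have hTlead : ∀ e, (T e).coeff (w e) ≠ 0 := by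
    intro e
    rw [← hTdeg e]
    have h2 : T e ≠ 0 := Finset.prod_ne_zero_iff.mpr (fun j _ => pow_ne_zero _ (hfne j))
    exact Polynomial.leadingCoeff_ne_zero.mpr h2
  have hsup : G.support.Nonempty := MvPolynomial.support_nonempty.mpr hG
  obtain ⟨e0, he0, hmax⟩ := G.support.exists_max_image w hsup
  have hstrict : ∀ e ∈ G.support, e ≠ e0 → w e < w e0 := by
    intro e he hne
    rcases lt_or_eq_of_le (hmax e he) with h | h
    · exact h
    · exact absurd (digits_inj' n B e e0 (hlt e he) (hlt e0 he0) h) hne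
  have hq : q.coeff (w e0) = G.coeff e0 * (T e0).coeff (w e0) := by
    simp only [q]
    rw [Polynomial.finset_sum_coeff, Finset.sum_eq_single e0]
    · rw [Polynomial.coeff_C_mul]
    · intro e he hne
      rw [Polynomial.coeff_C_mul, Polynomial.coeff_eq_zero_of_natDegree_lt, mul_zero]
      rw [hTdeg]
      exact hstrict e he hne
    · intro h
      exact absurd he0 h
  have hq0 : q ≠ 0 := by
    intro h
    rw [h, Polynomial.coeff_zero] at hq
    exact (mul_ne_zero (MvPolynomial.mem_support_iff.mp he0) (hTlead e0)) hq.symm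
  have hfin := (Polynomial.rootSet_finite q Ω)
  refine (q.roots.toFinset.finite_toSet).subset ?_
  intro l hl
  rw [Set.mem_setOf_eq] at hl
  rw [Finset.mem_coe, Multiset.mem_toFinset, Polynomial.mem_roots hq0, Polynomial.IsRoot.def]
  rw [← hl, eval_eq']
  simp only [q, T]
  rw [Polynomial.eval_finset_sum]
  apply Finset.sum_congr rfl
  intro e _
  simp [Polynomial.eval_prod]

end Helper77.VE
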