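import Mathlib

/-! Lifting non-vanishing along `z ↦ z^m`. -/

namespace Helper77.VE

open MvPolynomial Finset

variable {Ω : Type*} [Field Ω]

/-- exponents modulo `m` -/
noncomputable def emod (m : ℕ) {I : Type*} (e : I →₀ ℕ) : I →₀ ℕ :=
  e.mapRange (· % m) (Nat.zero_mod m)

/-- exponents divided by `m` -/
noncomputable def ediv (m : ℕ) {I : Type*} (e : I →₀ ℕ) : I →₀ ℕ :=
  e.mapRange (· / m) (Nat.zero_div m)

@[simp] theorem emod_apply (m : ℕ) {I : Type*} (e : I →₀ ℕ) (i : I) : emod m e i = e i % m := by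
  simp [emod]

@[simp] theorem ediv_apply (m : ℕ) {I : Type*} (e : I →₀ ℕ) (i : I) : ediv m e i = e i / m := by
  simp [ediv]

/-- the class polynomial -/
noncomputable def HR (N m : ℕ) (G : MvPolynomial (Fin N) Ω) (r : Fin N →₀ ℕ) :
    MvPolynomial (Fin N) Ω := by
  classical
  exact ∑ e ∈ G.support.filter (fun e => emod m e = r), monomial (ediv m e) (G.coeff e)

theorem HR_eval (N m : ℕ) (G : MvPolynomial (Fin N) Ω)
    (r : Fin N →₀ ℕ) (x : Fin N → Ω) (z : Fin N → Ω) (h : ∀ i, z i ^ m = x i) :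
    (∑ e ∈ G.support with emod m e = r, G.coeff e * ∏ i, z i ^ e i) =
      (∏ i, z i ^ r i) * eval x (HR N m G r) := by
  classical
  unfold HR
  rw [map_sum, Finset.mul_sum]
  apply Finset.sum_congr (by congr)
  intro e he
  rw [Finset.mem_filter] at he
  obtain ⟨-, hr⟩ := he
  rw [eval_monomial, Finsupp.prod_fintype _ _ (fun _ => pow_zero _)]
  have h2 : (∏ i, z i ^ e i) = (∏ i, z i ^ r i) * ∏ i, (x i) ^ (ediv m e i) := by
    rw [← Finset.prod_mul_distrib]
    apply Finset.prod_congr rfl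
    intro i _
    rw [← h i, ← pow_mul, ← pow_add, ← hr, emod_apply, ediv_apply, Nat.mod_add_div]
  rw [h2]
  ring

theorem HR_degree (N m : ℕ) (G : MvPolynomial (Fin N) Ω) (r : Fin N →₀ ℕ) :
    (HR N m G r).totalDegree ≤ G.totalDegree := by
  classical
  unfold HR
  refine (totalDegree_finset_sum _ _).trans (Finset.sup_le ?_)
  intro e he
  rw [Finset.mem_filter] at he
  have hne : G.coeff e ≠ 0 := MvPolynomial.mem_support_iff.mp he.1
  rw [totalDegree_monomial _ hne]
  have h5 := MvPolynomial.le_totalDegree he.1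
  refine le_trans ?_ h5
  rw [Finsupp.sum_fintype _ _ (fun _ => rfl), Finsupp.sum_fintype _ _ (fun _ => rfl)]
  apply Finset.sum_le_sum
  intro i _
  rw [ediv_apply]
  exact Nat.div_le_self _ _

theorem root_lift [IsAlgClosed Ω] [CharZero Ω] (N m : ℕ) (hm : 1 ≤ m)
    (G : MvPolynomial (Fin N) Ω) (z0 : Fin N → Ω) (hG : eval z0 G ≠ 0) :
    ∃ Hh : MvPolynomial (Fin N) Ω, eval (fun i => z0 i ^ m) Hh ≠ 0 ∧
      Hh.totalDegree ≤ G.totalDegree ∧
      ∀ x : Fin N → Ω, (∀ i, x i ≠ 0) → eval x Hh ≠ 0 →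
        ∃ z : Fin N → Ω, (∀ i, z i ^ m = x i) ∧ eval z G ≠ 0 := by
  classical
  -- the class
  have hsum : ∀ z : Fin N → Ω, eval z G =
      ∑ r ∈ G.support.image (emod m), ∑ e ∈ G.support with emod m e = r,
        G.coeff e * ∏ i, z i ^ e i := by
    intro z
    rw [eval_eq']
    exact (Finset.sum_fiberwise_of_maps_to (fun e he => Finset.mem_image_of_mem _ he) _).symm
  have hz0' := hG
  rw [hsum] at hz0'
  obtain ⟨r, hr, hne⟩ := Finset.exists_ne_zero_of_sum_ne_zero hz0'
  rw [HR_eval N m G r (fun i => z0 i ^ m) z0 (fun _ => rfl)] at hne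
  refine ⟨HR N m G r, right_ne_zero_of_mul hne, HR_degree N m G r, ?_⟩
  intro y hy hHy
  have hm0 : m ≠ 0 := by omega
  -- base point
  choose z1 hz1 using fun i => IsAlgClosed.exists_pow_nat_eq (y i) (Nat.pos_of_ne_zero hm0)
  have hz1ne : ∀ i, z1 i ≠ 0 := by
    intro i h
    have := hz1 i
    rw [h, zero_pow hm0] at this
    exact hy i this.symm
  by_contra hcon
  push Not at hcon
  -- roots of unity
  haveI : NeZero (m : Ω) := ⟨by exact_mod_cast hm0⟩
  let S : Finset Ω := (Polynomial.nthRootsFinset m (1 : Ω))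
  have hScard : S.card = m := by
    obtain ⟨ζ, hζ⟩ := HasEnoughRootsOfUnity.exists_primitiveRoot Ω m
    exact hζ.card_nthRootsFinset
  have hS : ∀ u ∈ S, u ^ m = 1 := by
    intro u hu
    exact (Polynomial.mem_nthRootsFinset (Nat.pos_of_ne_zero hm0) (1 : Ω)).mp hu
  let P : MvPolynomial (Fin N) Ω :=
    ∑ e ∈ G.support, monomial (emod m e) (G.coeff e * ∏ i, z1 i ^ e i)
  have hP : P = 0 := by
    apply eq_zero_of_eval_zero_at_prod_finset P (fun _ => S)
    · intro i
      rw [hScard]
      rw [degreeOf_lt_iff (Nat.pos_of_ne_zero hm0)]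
      intro e he
      have := MvPolynomial.support_sum he
      rw [Finset.mem_biUnion] at this
      obtain ⟨e', he', h⟩ := this
      have := MvPolynomial.support_monomial_subset h
      rw [Finset.mem_singleton] at this
      rw [this, emod_apply]
      exact Nat.mod_lt _ (Nat.pos_of_ne_zero hm0)
    · intro u hu
      have h1 : eval (fun i => u i * z1 i) G = 0 := by
        apply hcon
        intro j
        rw [mul_pow, hS _ (hu _), hz1, one_mul]
      rw [eval_eq'] at h1
      rw [map_sum, ← h1]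
      apply Finset.sum_congr rfl
      intro e he
      rw [eval_monomial, Finsupp.prod_fintype _ _ (fun _ => pow_zero _)]
      have h2 : ∀ i, u i ^ (emod m e i) = u i ^ e i := by
        intro i
        rw [emod_apply]
        conv_rhs => rw [← Nat.mod_add_div (e i) m, pow_add, pow_mul, hS _ (hu i), one_pow, mul_one]
      simp only [h2, mul_pow]
      rw [Finset.prod_mul_distrib]
      ring
  have hcoef : P.coeff r = (∏ i, z1 i ^ r i) * eval y (HR N m G r) := by
    rw [← HR_eval N m G r y z1 hz1]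
    simp only [P]
    rw [coeff_sum, Finset.sum_filter]
    apply Finset.sum_congr rfl
    intro e _
    rw [coeff_monomial]
  rw [hP, coeff_zero] at hcoef
  have : (∏ i, z1 i ^ r i) ≠ 0 := Finset.prod_ne_zero_iff.mpr (fun i _ => pow_ne_zero _ (hz1ne i))
  exact (mul_ne_zero this hHy) hcoef.symm

end Helper77.VE
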