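import Mathlib
import Pool.Agent.Helper61.VP.Transport
import Pool.Agent.Helper61.VP.Poly
import Pool.Agent.Helper64.VZ.Std

/-!
Reduction from `q ≥ n + 2` hyperplanes in general position to the standard ones.
-/

set_option autoImplicit false

namespace Helper77.VE

open NumberField Module Finset
open Pool.Agent.Helper64.Vojta
open Pool.Agent.Helper52.Vojta (ldeg)
open Pool.Agent.Helper61.VP
open Pool.Agent

universe u v

section arith

variable {k : Type u} [Field k] [NumberField k]

/-- Block P, with the non-vanishing of the first `n + 2` forms. -/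
theorem transport' {n p : ℕ} (Lam : Fin (n + 2 + p) → Fin (n + 1) → k)
    (hL : ∀ f : Fin (n + 1) → Fin (n + 2 + p), Function.Injective f → (Matrix.of fun i j => Lam (f i) j).det ≠ 0) :
    ∃ A : Matrix (Fin (n + 1)) (Fin (n + 1)) k, A.det ≠ 0 ∧
      (∀ (F : Type v) [Field F] [Algebra k F] (z : Fin (n + 1) → F), (∀ i, z i ≠ 0) → ∑ i, z i ≠ 0 →
        ∀ i : Fin (n + 2), ∑ j, algebraMap k F (Lam (Fin.castAdd p i) j) * ((A.map (algebraMap k F)).mulVec z) j ≠ 0) ∧
      (∃ C : ℝ, ∀ (F : Type v) [Field F] [NumberField F] [Algebra k F] (z : Fin (n + 1) → F), z ≠ 0 →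
        |Height.logHeight ((A.map (algebraMap k F)).mulVec z) - Height.logHeight z| ≤ C * finrank k F) ∧
      ∀ S : Finset (Pl k), ∃ C : ℝ, ∀ (F : Type v) [Field F] [NumberField F] [Algebra k F] (z : Fin (n + 1) → F),
        (∀ i, z i ≠ 0) → ∑ i, z i ≠ 0 →
        (∀ i, ∑ j, algebraMap k F (Lam i j) * ((A.map (algebraMap k F)).mulVec z) j ≠ 0) →
        ∑ ν ∈ S, ∑ w ∈ above F ν, ((∑ i, (Real.log (sn w z) - Real.log (nv w (z i)))) +
            (Real.log (sn w z) - Real.log (nv w (∑ i, z i)))) - C * finrank k F ≤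
          ∑ ν ∈ S, ∑ w ∈ above F ν, ∑ i, (Real.log (sn w ((A.map (algebraMap k F)).mulVec z)) -
            Real.log (nv w (∑ j, algebraMap k F (Lam i j) * ((A.map (algebraMap k F)).mulVec z) j))) := by
  classical
  obtain ⟨A, b, hA, hb, hAb⟩ := exists_mat.{v, u} Lam hL
  have hne : ∀ (F : Type v) [Field F] [Algebra k F] (z : Fin (n + 1) → F), z ≠ 0 → img A z ≠ 0 := by
    intro F _ _ z hz h
    apply hz
    rw [← img_inv A hA z, h]
    unfold img
    exact Matrix.mulVec_zero _
  refine ⟨A, hA, ?_, ?_, ?_⟩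
  · intro F _ _ z hz hs i
    obtain ⟨hAb1, hAb2⟩ := hAb F z
    refine Fin.lastCases ?_ (fun i => ?_) i
    · have h1 := hAb2
      change ∑ j, algebraMap k F (Lam (Fin.castAdd p (Fin.last (n + 1))) j) * img A z j ≠ 0
      rw [h1]
      exact hs
    · intro h
      have h1 := hAb1 i
      have h2 : ∑ j, algebraMap k F (Lam (Fin.castAdd p i.castSucc) j) * img A z j = 0 := h
      rw [h2, mul_zero] at h1
      exact hz i h1.symm
  · obtain ⟨C1, h1⟩ := height_img_le.{u, v} A
    obtain ⟨C2, h2⟩ := height_img_le.{u, v} A⁻¹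
    refine ⟨max C1 C2, fun F _ _ _ z hz => ?_⟩
    have h3 := h1 F z hz (hne F z hz)
    have h4 := h2 F (img A z) (hne F z hz) (by rw [img_inv A hA]; exact hz)
    rw [img_inv A hA] at h4
    have h5 : (0 : ℝ) ≤ finrank k F := Nat.cast_nonneg _
    have h6 := mul_le_mul_of_nonneg_right (le_max_left C1 C2) h5
    have h7 := mul_le_mul_of_nonneg_right (le_max_right C1 C2) h5
    change |Height.logHeight (img A z) - _| ≤ _
    rw [abs_le]
    constructor <;> linarith
  · intro S
    set Lm : Matrix (Fin (n + 2 + p)) (Fin (n + 1)) k := Matrix.of Lam with hLm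
    set c : Pl k → ℝ := fun ν => (n + 2) * cB A⁻¹ ν + (∑ i, |Real.log (nv ν (b i))|) + p * cB Lm ν with hc
    refine ⟨∑ ν ∈ S, c ν, fun F _ _ _ z hz hs hx => ?_⟩
    have hz0 : z ≠ 0 := fun h => hz 0 (congrFun h 0)
    set x := img A z with hxd
    have hx0 : x ≠ 0 := hne F z hz0
    obtain ⟨hAb1, hAb2⟩ := hAb F z
    have hxi : ∀ i, img Lm x i ≠ 0 := hx
    have hloc : ∀ ν : Pl k, ∀ w ∈ above F ν, ((∑ i, (Real.log (sn w z) - Real.log (nv w (z i)))) +
            (Real.log (sn w z) - Real.log (nv w (∑ i, z i)))) - c ν * ldeg ν w ≤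
        ∑ i, (Real.log (sn w x) - Real.log (nv w (img Lm x i))) := by
      intro ν w hw
      have h1 : Real.log (sn w z) ≤ Real.log (sn w x) + ldeg ν w * cB A⁻¹ ν := by
        have := log_sn_img_le A⁻¹ hw x hx0 (by rw [img_inv A hA]; exact hz0)
        rw [img_inv A hA] at this
        exact this
      have h2 : ∀ i : Fin (n + 1), Real.log (nv w (img Lm x (Fin.castAdd p i.castSucc))) =
          Real.log (nv w (z i)) - ldeg ν w * Real.log (nv ν (b i)) := by
        intro i
        have h3 := hAb1 i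
        have h4 : nv w (z i) = nv ν (b i) ^ ldeg ν w * nv w (img Lm x (Fin.castAdd p i.castSucc)) := by
          rw [← h3, nv_mul, Helper52.Vojta.nv_above hw]
          rfl
        rw [h4, Real.log_mul (pow_ne_zero _ (nv_pos _ (hb i)).ne') (nv_pos _ (hxi _)).ne', Real.log_pow]
        ring
      have h3 : img Lm x (Fin.castAdd p (Fin.last (n + 1))) = ∑ i, z i := hAb2
      have h4 : ∀ i : Fin p, -(ldeg ν w * cB Lm ν) ≤
          Real.log (sn w x) - Real.log (nv w (img Lm x (Fin.natAdd (n + 2) i))) := by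
        intro i
        have h5 := Real.log_le_log (nv_pos w (hxi _)) (row_le Lm hw x (Fin.natAdd (n + 2) i))
        rw [Real.log_mul (Real.exp_ne_zero _) (sn_pos w hx0).ne', Real.log_exp] at h5
        linarith
      have hR : ∑ i : Fin (n + 2 + p), (Real.log (sn w x) - Real.log (nv w (img Lm x i))) =
          (∑ i : Fin (n + 1), (Real.log (sn w x) - Real.log (nv w (img Lm x (Fin.castAdd p i.castSucc)))) +
            (Real.log (sn w x) - Real.log (nv w (img Lm x (Fin.castAdd p (Fin.last (n + 1))))))) +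
          ∑ i : Fin p, (Real.log (sn w x) - Real.log (nv w (img Lm x (Fin.natAdd (n + 2) i)))) := by
        rw [Fin.sum_univ_add]
        congr 1
        exact Fin.sum_univ_castSucc
          (fun i : Fin (n + 1 + 1) => Real.log (sn w x) - Real.log (nv w (img Lm x (Fin.castAdd p i))))
      rw [hR, h3]
      simp only [h2]
      have h5 : ∑ i : Fin (n + 1), (Real.log (sn w x) - (Real.log (nv w (z i)) - ldeg ν w * Real.log (nv ν (b i)))) ≥
          ∑ i : Fin (n + 1), ((Real.log (sn w z) - Real.log (nv w (z i))) - ldeg ν w * cB A⁻¹ ν -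
            ldeg ν w * |Real.log (nv ν (b i))|) := by
        refine sum_le_sum fun i _ => ?_
        have h6 : -|Real.log (nv ν (b i))| ≤ Real.log (nv ν (b i)) := neg_abs_le _
        have h7 := mul_le_mul_of_nonneg_left h6 (Nat.cast_nonneg (ldeg ν w) : (0 : ℝ) ≤ ldeg ν w)
        linarith
      have h6 : ∑ i : Fin (n + 1), ((Real.log (sn w z) - Real.log (nv w (z i))) - ldeg ν w * cB A⁻¹ ν -
            ldeg ν w * |Real.log (nv ν (b i))|) = ∑ i : Fin (n + 1), (Real.log (sn w z) - Real.log (nv w (z i))) -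
          (n + 1) * (ldeg ν w * cB A⁻¹ ν) - ldeg ν w * ∑ i, |Real.log (nv ν (b i))| := by
        rw [sum_sub_distrib, sum_sub_distrib, sum_const, card_univ, Fintype.card_fin, nsmul_eq_mul, ← mul_sum]
        push_cast
        ring
      have h7 : ∑ i : Fin p, (Real.log (sn w x) - Real.log (nv w (img Lm x (Fin.natAdd (n + 2) i)))) ≥
          -(p * (ldeg ν w * cB Lm ν)) := by
        calc ∑ i : Fin p, (Real.log (sn w x) - Real.log (nv w (img Lm x (Fin.natAdd (n + 2) i)))) ≥
              ∑ _i : Fin p, -(ldeg ν w * cB Lm ν) := sum_le_sum fun i _ => h4 i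
          _ = -(p * (ldeg ν w * cB Lm ν)) := by
              rw [sum_const, card_univ, Fintype.card_fin, nsmul_eq_mul]
              ring
      rw [h6] at h5
      have h8 : c ν * ldeg ν w = (n + 1) * (ldeg ν w * cB A⁻¹ ν) + ldeg ν w * cB A⁻¹ ν +
          ldeg ν w * ∑ i, |Real.log (nv ν (b i))| + p * (ldeg ν w * cB Lm ν) := by
        rw [hc]
        ring
      rw [h8]
      linarith
    have hsum : ∑ ν ∈ S, ∑ w ∈ above F ν, (((∑ i, (Real.log (sn w z) - Real.log (nv w (z i)))) +
            (Real.log (sn w z) - Real.log (nv w (∑ i, z i)))) - c ν * ldeg ν w) ≤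
        ∑ ν ∈ S, ∑ w ∈ above F ν, ∑ i, (Real.log (sn w x) - Real.log (nv w (img Lm x i))) :=
      sum_le_sum fun ν _ => sum_le_sum fun w hw => hloc ν w hw
    have hc2 : ∑ ν ∈ S, ∑ w ∈ above F ν, c ν * (ldeg ν w : ℝ) = (∑ ν ∈ S, c ν) * finrank k F := by
      rw [sum_mul]
      refine sum_congr rfl fun ν _ => ?_
      rw [← mul_sum, ← Nat.cast_sum, Helper52.Vojta.sum_ldeg]
    simp only [sum_sub_distrib] at hsum
    rw [hc2] at hsum
    simp only [sum_sub_distrib]
    exact hsum

end arith

section poly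

open MvPolynomial

variable {K : Type*} [Field K]

/-- affine form of a linear form -/
noncomputable def af {n : ℕ} (c : Fin (n + 1) → K) : MvPolynomial (Fin n) K :=
  ∑ j, C (c j) * (Fin.cons 1 X : Fin (n + 1) → MvPolynomial (Fin n) K) j

theorem eval_af {n : ℕ} (c : Fin (n + 1) → K) (z : Fin n → K) :
    eval z (af c) = ∑ j, c j * (Fin.cons 1 z : Fin (n + 1) → K) j := by
  unfold af
  rw [map_sum]
  refine sum_congr rfl fun j _ => ?_
  rw [map_mul, eval_C]
  congr 1
  refine Fin.cases ?_ (fun j => ?_) j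
  · simp
  · simp

theorem deg_af {n : ℕ} (c : Fin (n + 1) → K) : (af c).totalDegree ≤ 1 := by
  unfold af
  refine (totalDegree_finsetSum _ _).trans (Finset.sup_le fun j _ => ?_)
  refine (totalDegree_mul _ _).trans ?_
  rw [totalDegree_C, zero_add]
  refine Fin.cases ?_ (fun j => ?_) j
  · simp
  · simp

theorem af_ne {n : ℕ} (c : Fin (n + 1) → K) (hc : c ≠ 0) : af c ≠ 0 := by
  intro h
  apply hc
  have hev : ∀ z : Fin n → K, ∑ j, c j * (Fin.cons 1 z : Fin (n + 1) → K) j = 0 := by
    intro z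
    rw [← eval_af, h, map_zero]
  have h00 : c 0 = 0 := by
    have := hev 0
    rw [Fin.sum_univ_succ] at this
    simpa using this
  funext j
  refine Fin.cases h00 (fun j => ?_) j
  have := hev (Pi.single j 1)
  rw [Fin.sum_univ_succ, h00] at this
  simpa [Pi.single_apply] using this

end poly

section red

open IntermediateField MvPolynomial Pool.Agent.VZ

variable {k : Type u} [Field k] [NumberField k]

/-- the sum of the Weil functions at a vector over an intermediate field -/
noncomputable def lamE {n q : ℕ} (E : IntermediateField k (AlgebraicClosure k)) [NumberField E]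
    (Λ : Fin q → Fin (n + 1) → k) (S : Finset (Pl k)) (x : Fin (n + 1) → E) : ℝ :=
  ∑ ν ∈ S, ∑ w ∈ above E ν, ∑ i, (Real.log (sn w x) -
    Real.log (nv w (∑ j, algebraMap k E (Λ i j) * x j)))

theorem lamE_congr {n q : ℕ} {E E' : IntermediateField k (AlgebraicClosure k)} [NumberField E]
    [NumberField E'] (h : E = E') (Λ : Fin q → Fin (n + 1) → k) (S : Finset (Pl k))
    (x : Fin (n + 1) → E) (x' : Fin (n + 1) → E')
    (hx : ∀ i, (x i : AlgebraicClosure k) = x' i) : lamE E Λ S x = lamE E' Λ S x' := by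
  subst h
  have : x = x' := funext fun i => Subtype.ext (hx i)
  rw [this]

theorem lh_congr {n : ℕ} {E E' : IntermediateField k (AlgebraicClosure k)} [NumberField E]
    [NumberField E'] (h : E = E') (x : Fin (n + 1) → E) (x' : Fin (n + 1) → E')
    (hx : ∀ i, (x i : AlgebraicClosure k) = x' i) : Height.logHeight x = Height.logHeight x' := by
  subst h
  have : x = x' := funext fun i => Subtype.ext (hx i)
  rw [this]

theorem discr_congr {E E' : IntermediateField k (AlgebraicClosure k)} [NumberField E]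
    [NumberField E'] (h : E = E') : discr E = discr E' := by
  subst h
  rfl

theorem ne_congr {n : ℕ} {E E' : IntermediateField k (AlgebraicClosure k)}
    (h : E = E') (c : Fin (n + 1) → k) (x : Fin (n + 1) → E) (x' : Fin (n + 1) → E')
    (hx : ∀ i, (x i : AlgebraicClosure k) = x' i)
    (h0 : ∑ j, algebraMap k E (c j) * x j ≠ 0) : ∑ j, algebraMap k E' (c j) * x' j ≠ 0 := by
  subst h
  have : x = x' := funext fun i => Subtype.ext (hx i)
  rwa [← this]

theorem sn_smul' {E : Type*} [Field E] [NumberField E] {m : ℕ} (w : Pl E) (c : E) (x : Fin m → E) :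
    sn w (fun i => c * x i) = nv w c * sn w x := by
  unfold sn
  rw [Real.mul_iSup_of_nonneg (nv_nonneg w c)]
  exact iSup_congr fun i => nv_mul w c (x i)

theorem lamE_smul {n q : ℕ} (E : IntermediateField k (AlgebraicClosure k)) [NumberField E]
    (Λ : Fin q → Fin (n + 1) → k) (S : Finset (Pl k)) (x : Fin (n + 1) → E) (c : E) (hc : c ≠ 0)
    (hx : x ≠ 0) (h : ∀ i, ∑ j, algebraMap k E (Λ i j) * x j ≠ 0) :
    lamE E Λ S (fun i => c * x i) = lamE E Λ S x := by
  unfold lamE
  refine sum_congr rfl fun ν _ => sum_congr rfl fun w _ => sum_congr rfl fun i _ => ?_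
  have h1 : ∑ j, algebraMap k E (Λ i j) * (c * x j) = c * ∑ j, algebraMap k E (Λ i j) * x j := by
    rw [mul_sum]
    exact sum_congr rfl fun j _ => by ring
  rw [h1, sn_smul', nv_mul, Real.log_mul (nv_pos w hc).ne' (sn_pos w hx).ne',
    Real.log_mul (nv_pos w hc).ne' (nv_pos w (h i)).ne']
  ring

/-- Block P in its final form. -/
theorem reduce {n : ℕ} (S : Finset (Pl k)) (q : ℕ) (Λ : Fin q → Fin (n + 1) → k)
    (hq : n + 2 ≤ q) (hΛ : Pool.Agent.VZ.GenPos Λ) (G : MvPolynomial (Fin n) (AlgebraicClosure k)) (hG : G ≠ 0) :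
    ∃ G2 : MvPolynomial (Fin n) (AlgebraicClosure k), G2 ≠ 0 ∧ G2.totalDegree ≤ G.totalDegree + q ∧
      ∀ α ε C : ℝ, ∃ C' : ℝ, ∀ z, Violates S (Std k n) G2 α ε C' z →
        ∃ y, dg y = dg z ∧ Violates S Λ G α ε C y := by
  classical
  obtain ⟨p, rfl⟩ : ∃ p, q = n + 2 + p := ⟨q - (n + 2), by omega⟩
  obtain ⟨A, hA, hAne, ⟨C1, hC1⟩, hT⟩ := transport'.{u, u} Λ hΛ
  obtain ⟨C2, hC2⟩ := hT S
  have hrow : ∀ i, Λ i ≠ 0 := by
    intro i h
    -- an injective family through `i`
    obtain ⟨f, hf, hfi⟩ : ∃ f : Fin (n + 1) → Fin (n + 2 + p), Function.Injective f ∧ f 0 = i := by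
      refine ⟨fun j => Equiv.swap (⟨0, by omega⟩ : Fin (n + 2 + p)) i (Fin.castLE (by omega) j), ?_, ?_⟩
      · exact (Equiv.injective _).comp (Fin.castLE_injective _)
      · have : (Fin.castLE (by omega) (0 : Fin (n + 1)) : Fin (n + 2 + p)) = ⟨0, by omega⟩ := rfl
        simp only [this, Equiv.swap_apply_left]
    apply hΛ f hf
    apply Matrix.det_eq_zero_of_row_eq_zero 0
    intro j
    rw [Matrix.of_apply, hfi, h]
    rfl
  -- the polynomial
  set Q : MvPolynomial (Fin n) (AlgebraicClosure k) := ∏ i : Fin p,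
    af (fun j => algebraMap k (AlgebraicClosure k) (Λ (Fin.natAdd (n + 2) i) j)) with hQ
  have hQ0 : Q ≠ 0 := by
    rw [hQ, prod_ne_zero_iff]
    intro i _
    apply af_ne
    intro h
    apply hrow (Fin.natAdd (n + 2) i)
    funext j
    have := congrFun h j
    simpa using this
  have hQd : Q.totalDegree ≤ p := by
    rw [hQ]
    refine (totalDegree_finsetProd _ _).trans ?_
    refine (sum_le_sum fun i _ => deg_af _).trans ?_
    simp
  obtain ⟨G2, hG2, hG2d, hG2e⟩ := transport_poly A hA (G * Q) (mul_ne_zero hG hQ0)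
  refine ⟨G2, hG2, ?_, fun α ε C => ⟨C + |ε| * |C1| + (n + 1) * |C1| + C2, fun z hz => ?_⟩⟩
  · have := totalDegree_mul G Q
    omega
  obtain ⟨hz1, hz2, hz3⟩ := hz
  obtain ⟨hX0, hGQ⟩ := hG2e z hz1
  set X : Fin (n + 1) → (AlgebraicClosure k) := (A.map (algebraMap k (AlgebraicClosure k))).mulVec (Fin.cons 1 z) with hX
  set y : Fin n → (AlgebraicClosure k) := fun i => X i.succ / X 0 with hy
  rw [map_mul] at hGQ
  have hGy := left_ne_zero_of_mul hGQ
  have hQy := right_ne_zero_of_mul hGQ
  -- the vector in `fld z`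
  set xz : Fin (n + 1) → fld z := (A.map (algebraMap k (fld z))).mulVec (crd z) with hxz
  have hcrd : ∀ i, ((crd z i : fld z) : (AlgebraicClosure k)) = (Fin.cons 1 z : Fin (n + 1) → (AlgebraicClosure k)) i := by
    intro i
    refine Fin.cases ?_ (fun i => ?_) i
    · rfl
    · rfl
  have hxzX : ∀ i, ((xz i : fld z) : (AlgebraicClosure k)) = X i := by
    intro i
    rw [hxz, hX]
    simp only [Matrix.mulVec, dotProduct, Matrix.map_apply]
    push_cast
    refine sum_congr rfl fun j _ => ?_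
    rw [hcrd j]
  have hxz0 : xz 0 ≠ 0 := by
    intro h
    apply hX0
    rw [← hxzX 0, h]
    rfl
  -- the fields agree
  have hcy : (Fin.cons 1 y : Fin (n + 1) → (AlgebraicClosure k)) = fun i => (X 0)⁻¹ * X i := by
    funext i
    refine Fin.cases ?_ (fun i => ?_) i
    · rw [Fin.cons_zero, inv_mul_cancel₀ hX0]
    · rw [Fin.cons_succ]
      exact div_eq_inv_mul _ _
  have hle : fld y ≤ fld z := by
    unfold fld
    rw [adjoin_le_iff]
    rintro _ ⟨i, rfl⟩
    show X i.succ / X 0 ∈ fld z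
    rw [← hxzX, ← hxzX]
    exact (fld z).div_mem (xz i.succ).2 (xz 0).2
  have hge : fld z ≤ fld y := by
    -- invert
    have hinv : img A⁻¹ X = (Fin.cons 1 z : Fin (n + 1) → (AlgebraicClosure k)) := img_inv A hA _
    have h1 : ∀ i, img A⁻¹ (Fin.cons 1 y : Fin (n + 1) → (AlgebraicClosure k)) i = (X 0)⁻¹ * (Fin.cons 1 z : Fin (n + 1) → (AlgebraicClosure k)) i := by
      intro i
      rw [hcy, ← hinv, img_apply, img_apply, mul_sum]
      exact sum_congr rfl fun j _ => by ring
    have h2 : ∀ i, img A⁻¹ (Fin.cons 1 y : Fin (n + 1) → (AlgebraicClosure k)) i ∈ fld y := by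
      intro i
      rw [img_apply]
      refine (fld y).sum_mem fun j _ => (fld y).mul_mem ((fld y).algebraMap_mem _) ?_
      refine Fin.cases ?_ (fun j => ?_) j
      · exact (fld y).one_mem
      · exact subset_adjoin k _ (Set.mem_range_self j)
    unfold fld
    rw [adjoin_le_iff]
    rintro _ ⟨i, rfl⟩
    have h3 := h2 i.succ
    have h4 := h2 0
    rw [h1] at h3 h4
    rw [Fin.cons_succ] at h3
    rw [Fin.cons_zero, mul_one] at h4
    have h5 := (fld y).div_mem h3 h4
    have h6 : (X 0)⁻¹ * z i / (X 0)⁻¹ = z i := by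
      rw [mul_comm, mul_div_assoc, div_self (inv_ne_zero hX0), mul_one]
    rw [h6] at h5
    exact h5
  have hfld : fld y = fld z := le_antisymm hle hge
  have hdg : dg y = dg z := by
    unfold dg
    rw [hfld]
  -- the coordinates
  set c : fld z := (xz 0)⁻¹ with hc
  have hc0 : c ≠ 0 := inv_ne_zero hxz0
  have hcoord : ∀ i, ((crd y i : fld y) : (AlgebraicClosure k)) = ((c * xz i : fld z) : (AlgebraicClosure k)) := by
    intro i
    have h1 : ((crd y i : fld y) : (AlgebraicClosure k)) = (Fin.cons 1 y : Fin (n + 1) → (AlgebraicClosure k)) i := by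
      refine Fin.cases ?_ (fun i => ?_) i
      · rfl
      · rfl
    rw [h1, hcy, hc]
    push_cast
    rw [hxzX, hxzX]
  have hxzne : xz ≠ 0 := fun h => hxz0 (congrFun h 0)
  have hD : (0 : ℝ) < (dg z : ℝ) := by
    unfold dg
    have : FiniteDimensional k (fld z) := FiniteDimensional.right ℚ k (fld z)
    exact_mod_cast (finrank_pos : 0 < finrank k (fld z))
  -- the hypotheses on `z`
  have hz0 : ∀ i, crd z i ≠ 0 := by
    intro i
    have := hz2 i.castSucc
    rwa [std_castSucc] at this
  have hzs : ∑ i, crd z i ≠ 0 := by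
    have := hz2 (Fin.last (n + 1))
    rwa [std_last] at this
  have hzne : crd z ≠ 0 := fun h => hz0 0 (congrFun h 0)
  have hΛx : ∀ i, ∑ j, algebraMap k (fld z) (Λ i j) * xz j ≠ 0 := by
    intro i
    refine Fin.addCases (fun i => ?_) (fun i => ?_) i
    · exact hAne (fld z) (crd z) hz0 hzs i
    · intro h
      rw [hQ, map_prod, prod_ne_zero_iff] at hQy
      apply hQy i (mem_univ i)
      rw [eval_af, hcy]
      have h1 : ∑ j, algebraMap k (AlgebraicClosure k) (Λ (Fin.natAdd (n + 2) i) j) * ((X 0)⁻¹ * X j) =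
          (X 0)⁻¹ * ∑ j, algebraMap k (AlgebraicClosure k) (Λ (Fin.natAdd (n + 2) i) j) * X j := by
        rw [mul_sum]
        exact sum_congr rfl fun j _ => by ring
      rw [h1]
      have h2 := congrArg (fun t : fld z => (t : (AlgebraicClosure k))) h
      push_cast at h2
      have h3 : ∑ j, algebraMap k (AlgebraicClosure k) (Λ (Fin.natAdd (n + 2) i) j) * X j = 0 := by
        rw [← h2]
        refine sum_congr rfl fun j _ => ?_
        rw [hxzX]
      rw [h3, mul_zero]
  -- heights
  have hh : Height.logHeight (crd y) = Height.logHeight xz := by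
    rw [lh_congr hfld (crd y) (fun i => c * xz i) hcoord]
    exact Height.logHeight_smul_eq_logHeight xz hc0
  have hhgt : |hgt y - hgt z| ≤ |C1| := by
    unfold hgt
    rw [hh, hdg, ← sub_div, abs_div, abs_of_pos hD, div_le_iff₀ hD]
    refine (hC1 (fld z) (crd z) hzne).trans ?_
    exact mul_le_mul_of_nonneg_right (le_abs_self _) hD.le
  have hdk : dk y = dk z := by
    unfold dk
    rw [hdg, discr_congr hfld]
  have hlam : lam (Std k n) S z - C2 ≤ lam Λ S y := by
    have h1 : lam Λ S y = lamE (fld y) Λ S (crd y) / dg y := rfl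
    rw [h1, hdg, lamE_congr hfld Λ S (crd y) (fun i => c * xz i) hcoord, lamE_smul _ Λ S xz c hc0 hxzne hΛx,
      lam_std, le_div_iff₀ hD, sub_mul, div_mul_cancel₀ _ hD.ne']
    have h2 := hC2 (fld z) (crd z) hz0 hzs hΛx
    exact h2
  refine ⟨y, hdg, hGy, ?_, ?_⟩
  · intro i
    apply ne_congr hfld.symm (Λ i) (fun j => c * xz j) (crd y) (fun j => (hcoord j).symm)
    have h1 : ∑ j, algebraMap k (fld z) (Λ i j) * (c * xz j) = c * ∑ j, algebraMap k (fld z) (Λ i j) * xz j := by
      rw [mul_sum]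
      exact sum_congr rfl fun j _ => by ring
    rw [h1]
    exact mul_ne_zero hc0 (hΛx i)
  · rw [hdk]
    obtain ⟨h1, h2⟩ := abs_le.mp hhgt
    have h3 : ε * (hgt y - hgt z) ≤ |ε| * |C1| := by
      calc ε * (hgt y - hgt z) ≤ |ε * (hgt y - hgt z)| := le_abs_self _
        _ = |ε| * |hgt y - hgt z| := abs_mul _ _
        _ ≤ |ε| * |C1| := mul_le_mul_of_nonneg_left hhgt (abs_nonneg _)
    have h4 : ((n : ℝ) + 1) * (hgt y - hgt z) ≤ (n + 1) * |C1| := by
      have : (0 : ℝ) ≤ (n : ℝ) + 1 := by positivity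
      exact mul_le_mul_of_nonneg_left h2 this
    linarith

end red

end Helper77.VE
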