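import Mathlib

/-! Lifting non-vanishing from `(P^1)^d` to a product of Fermat curves. -/

namespace Helper77.VE

open MvPolynomial Finset

variable {Ω : Type*} [Field Ω]

/-- exponents modulo `m` -/
noncomputable def modm (m : ℕ) {I : Type*} (e : I →₀ ℕ) : I →₀ ℕ :=
  e.mapRange (· % m) (Nat.zero_mod m)

@[simp] theorem modm_apply (m : ℕ) {I : Type*} (e : I →₀ ℕ) (i : I) : modm m e i = e i % m := by
  simp [modm]

/-- the class polynomial -/
noncomputable def HH (d m : ℕ) (G : MvPolynomial (Fin d × Fin 2) Ω) (r : Fin d × Fin 2 →₀ ℕ) :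
    MvPolynomial (Fin d) Ω := by
  classical
  exact ∑ e ∈ G.support.filter (fun e => modm m e = r),
    C (G.coeff e) * ∏ j : Fin d, ((X j) ^ (e (j, 0) / m) * (1 - X j) ^ (e (j, 1) / m))

theorem fiber_eval (d m : ℕ) (G : MvPolynomial (Fin d × Fin 2) Ω)
    (r : Fin d × Fin 2 →₀ ℕ) (y : Fin d → Ω) (z : Fin d × Fin 2 → Ω)
    (h0 : ∀ j, z (j, 0) ^ m = y j) (h1 : ∀ j, z (j, 1) ^ m = 1 - y j) :
    (∑ e ∈ G.support with modm m e = r, G.coeff e * ∏ i, z i ^ e i) =
      (∏ i, z i ^ r i) * eval y (HH d m G r) := by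
  classical
  unfold HH
  rw [map_sum, Finset.mul_sum]
  apply Finset.sum_congr (by congr)
  intro e he
  rw [Finset.mem_filter] at he
  obtain ⟨-, hr⟩ := he
  rw [map_mul, eval_C, map_prod]
  have h2 : (∏ i, z i ^ e i) = (∏ i, z i ^ r i) * ∏ i, (z i ^ m) ^ (e i / m) := by
    rw [← Finset.prod_mul_distrib]
    apply Finset.prod_congr rfl
    intro i _
    rw [← pow_mul, ← pow_add, ← hr, modm_apply, Nat.mod_add_div]
  rw [h2]
  have h3 : (∏ i : Fin d × Fin 2, (z i ^ m) ^ (e i / m)) =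
      ∏ j : Fin d, eval y ((X j) ^ (e (j, 0) / m) * (1 - X j) ^ (e (j, 1) / m)) := by
    rw [Fintype.prod_prod_type]
    apply Finset.prod_congr rfl
    intro j _
    rw [Fin.prod_univ_two, h0, h1]
    simp
  rw [h3]
  ring

theorem HH_degree (d m : ℕ) (G : MvPolynomial (Fin d × Fin 2) Ω) (r : Fin d × Fin 2 →₀ ℕ)
    (j : Fin d) : (HH d m G r).degreeOf j ≤ G.totalDegree := by
  classical
  unfold HH
  refine (degreeOf_sum_le j _ _).trans (Finset.sup_le ?_)
  intro e he
  rw [Finset.mem_filter] at he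
  refine (degreeOf_C_mul_le _ _ _).trans ?_
  refine (degreeOf_prod_le _ _ _).trans ?_
  have h1 : ∀ i ∈ (Finset.univ : Finset (Fin d)), i ≠ j →
      degreeOf j ((X i) ^ (e (i, 0) / m) * (1 - X i) ^ (e (i, 1) / m) : MvPolynomial (Fin d) Ω) = 0
      := by
    intro i _ hij
    apply Nat.le_zero.mp
    refine (degreeOf_mul_le _ _ _).trans ?_
    have ha : degreeOf j ((X i : MvPolynomial (Fin d) Ω) ^ (e (i, 0) / m)) = 0 :=
      degreeOf_X_pow_of_ne _ (Ne.symm hij)
    have hb : degreeOf j (1 - X i : MvPolynomial (Fin d) Ω) = 0 := by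
      apply Nat.le_zero.mp
      rw [sub_eq_add_neg]
      refine (degreeOf_add_le _ _ _).trans ?_
      rw [degreeOf_neg, degreeOf_X_of_ne (Ne.symm hij), degreeOf_one]
      simp
    have hc : degreeOf j ((1 - X i : MvPolynomial (Fin d) Ω) ^ (e (i, 1) / m)) ≤ 0 := by
      refine (degreeOf_pow_le _ _ _).trans ?_
      rw [hb]; simp
    omega
  rw [Finset.sum_eq_single j h1 (fun h => absurd (Finset.mem_univ j) h)]
  refine (degreeOf_mul_le _ _ _).trans ?_
  have ha : degreeOf j ((X j : MvPolynomial (Fin d) Ω) ^ (e (j, 0) / m)) ≤ e (j, 0) / m := by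
    refine (degreeOf_pow_le _ _ _).trans ?_
    rw [degreeOf_X_self]; simp
  have hb : degreeOf j (1 - X j : MvPolynomial (Fin d) Ω) ≤ 1 := by
    rw [sub_eq_add_neg]
    refine (degreeOf_add_le _ _ _).trans ?_
    rw [degreeOf_neg, degreeOf_X_self, degreeOf_one]
    simp
  have hc : degreeOf j ((1 - X j : MvPolynomial (Fin d) Ω) ^ (e (j, 1) / m)) ≤ e (j, 1) / m := by
    refine (degreeOf_pow_le _ _ _).trans ?_
    calc (e (j, 1) / m) * degreeOf j (1 - X j : MvPolynomial (Fin d) Ω)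
        ≤ (e (j, 1) / m) * 1 := Nat.mul_le_mul_left _ hb
      _ = _ := by simp
  have hd0 : e (j, 0) / m ≤ e (j, 0) := Nat.div_le_self _ _
  have hd1 : e (j, 1) / m ≤ e (j, 1) := Nat.div_le_self _ _
  have ht : e (j, 0) + e (j, 1) ≤ G.totalDegree := by
    have h5 := MvPolynomial.le_totalDegree he.1
    rw [Finsupp.sum_fintype _ _ (fun _ => rfl), Fintype.sum_prod_type] at h5
    have h6 : (∑ y : Fin 2, e (j, y)) ≤ ∑ x : Fin d, ∑ y : Fin 2, e (x, y) :=
      Finset.single_le_sum (f := fun x => ∑ y : Fin 2, e (x, y)) (fun _ _ => Nat.zero_le _)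
        (Finset.mem_univ j)
    rw [Fin.sum_univ_two] at h6
    omega
  omega

theorem fermat_lift [IsAlgClosed Ω] [CharZero Ω] (d m : ℕ) (hm : 1 ≤ m)
    (G : MvPolynomial (Fin d × Fin 2) Ω) (z0 : Fin d × Fin 2 → Ω)
    (hz0 : ∀ j, z0 (j, 0) ^ m + z0 (j, 1) ^ m = 1) (hG : eval z0 G ≠ 0) :
    ∃ H : MvPolynomial (Fin d) Ω, H ≠ 0 ∧ (∀ j, H.degreeOf j ≤ G.totalDegree) ∧
      ∀ y : Fin d → Ω, (∀ j, y j ≠ 0 ∧ y j ≠ 1) → eval y H ≠ 0 →
        ∃ z : Fin d × Fin 2 → Ω, (∀ j, z (j, 0) ^ m = y j ∧ z (j, 1) ^ m = 1 - y j) ∧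
          eval z G ≠ 0 := by
  classical
  -- the class
  have hsum : ∀ z : Fin d × Fin 2 → Ω, eval z G =
      ∑ r ∈ G.support.image (modm m), ∑ e ∈ G.support with modm m e = r,
        G.coeff e * ∏ i, z i ^ e i := by
    intro z
    rw [eval_eq']
    exact (Finset.sum_fiberwise_of_maps_to (fun e he => Finset.mem_image_of_mem _ he) _).symm
  have hz0' := hG
  rw [hsum] at hz0'
  obtain ⟨r, hr, hne⟩ := Finset.exists_ne_zero_of_sum_ne_zero hz0'
  rw [fiber_eval d m G r (fun j => z0 (j, 0) ^ m) z0 (fun _ => rfl)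
    (fun j => by rw [← hz0 j]; ring)] at hne
  refine ⟨HH d m G r, ?_, HH_degree d m G r, ?_⟩
  · intro h
    rw [h] at hne
    simp at hne
  intro y hy hHy
  have hm0 : m ≠ 0 := by omega
  -- base point
  choose a ha using fun j => IsAlgClosed.exists_pow_nat_eq (y j) (Nat.pos_of_ne_zero hm0)
  choose b hb using fun j => IsAlgClosed.exists_pow_nat_eq (1 - y j) (Nat.pos_of_ne_zero hm0)
  let z1 : Fin d × Fin 2 → Ω := fun i => if i.2 = 0 then a i.1 else b i.1
  have hz10 : ∀ j, z1 (j, 0) ^ m = y j := fun j => by simp [z1, ha]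
  have hz11 : ∀ j, z1 (j, 1) ^ m = 1 - y j := fun j => by simp [z1, hb]
  have hz1ne : ∀ i, z1 i ≠ 0 := by
    rintro ⟨j, l⟩ h
    fin_cases l
    · have := hz10 j
      simp only [Fin.zero_eta] at h
      rw [h, zero_pow hm0] at this
      exact (hy j).1 this.symm
    · have := hz11 j
      simp only [Fin.mk_one] at h
      rw [h, zero_pow hm0] at this
      exact (hy j).2 (by linear_combination this)
  by_contra hcon
  push Not at hcon
  -- roots of unity
  haveI : NeZero (m : Ω) := ⟨by exact_mod_cast hm0⟩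
  let S : Finset Ω := (Polynomial.nthRootsFinset m (1 : Ω))
  have hScard : S.card = m := by
    obtain ⟨ζ, hζ⟩ := HasEnoughRootsOfUnity.exists_primitiveRoot Ω m
    exact hζ.card_nthRootsFinset
  have hS : ∀ u ∈ S, u ^ m = 1 := by
    intro u hu
    exact (Polynomial.mem_nthRootsFinset (Nat.pos_of_ne_zero hm0) (1 : Ω)).mp hu
  let P : MvPolynomial (Fin d × Fin 2) Ω :=
    ∑ e ∈ G.support, monomial (modm m e) (G.coeff e * ∏ i, z1 i ^ e i)
  have hP : P = 0 := by
    apply eq_zero_of_eval_zero_at_prod_finset P (fun _ => S)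
    · intro i
      rw [hScard]
      rw [degreeOf_lt_iff (Nat.pos_of_ne_zero hm0)]
      intro e he
      have := MvPolynomial.support_sum he
      rw [Finset.mem_biUnion] at this
      obtain ⟨e', he', h⟩ := this
      have := MvPolynomial.support_monomial_subset h
      rw [Finset.mem_singleton] at this
      rw [this, modm_apply]
      exact Nat.mod_lt _ (Nat.pos_of_ne_zero hm0)
    · intro u hu
      have h1 : eval (fun i => u i * z1 i) G = 0 := by
        apply hcon
        intro j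
        refine ⟨?_, ?_⟩
        · rw [mul_pow, hS _ (hu _), hz10, one_mul]
        · rw [mul_pow, hS _ (hu _), hz11, one_mul]
      rw [eval_eq'] at h1
      rw [map_sum, ← h1]
      apply Finset.sum_congr rfl
      intro e he
      rw [eval_monomial, Finsupp.prod_fintype _ _ (fun _ => pow_zero _)]
      have h2 : ∀ i, u i ^ (modm m e i) = u i ^ e i := by
        intro i
        rw [modm_apply]
        conv_rhs => rw [← Nat.mod_add_div (e i) m, pow_add, pow_mul, hS _ (hu i), one_pow, mul_one]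
      simp only [h2, mul_pow]
      rw [Finset.prod_mul_distrib]
      ring
  have hcoef : P.coeff r = (∏ i, z1 i ^ r i) * eval y (HH d m G r) := by
    rw [← fiber_eval d m G r y z1 hz10 hz11]
    simp only [P]
    rw [coeff_sum, Finset.sum_filter]
    apply Finset.sum_congr rfl
    intro e _
    rw [coeff_monomial]
  rw [hP, coeff_zero] at hcoef
  have : (∏ i, z1 i ^ r i) ≠ 0 := Finset.prod_ne_zero_iff.mpr (fun i _ => pow_ne_zero _ (hz1ne i))
  exact (mul_ne_zero this hHy) hcoef.symm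

end Helper77.VE
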